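import Mathlib

namespace Pool.Agent.Results.MP_414122_co.Counter

open Filter Topology

/-- Permutations of length `n`. -/
abbrev P (n : ℕ) := Equiv.Perm (Fin n)

/-- Some subsequence of `π` is order-isomorphic to `σ`. -/
def Contains {n k : ℕ} (π : P n) (σ : P k) : Prop :=
  ∃ f : Fin k → Fin n, StrictMono f ∧ ∀ i j, σ i < σ j ↔ π (f i) < π (f j)

/-- `π = σ ⊕ τ`. -/
def IsSum {n k m : ℕ} (π : P n) (σ : P k) (τ : P m) : Prop :=
  n = k + m ∧ (∀ (i : Fin k) (j : Fin n), j.1 = i.1 → (π j).1 = (σ i).1) ∧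
    ∀ (i : Fin m) (j : Fin n), j.1 = k + i.1 → (π j).1 = k + (τ i).1

def IsClass (C : ∀ n, Set (P n)) : Prop :=
  ∀ n k (π : P n) (σ : P k), π ∈ C n → Contains π σ → σ ∈ C k

def SumClosed (C : ∀ n, Set (P n)) : Prop :=
  ∀ n k m (π : P n) (σ : P k) (τ : P m), σ ∈ C k → τ ∈ C m → IsSum π σ τ → π ∈ C n

def Indec {n : ℕ} (π : P n) : Prop :=
  0 < n ∧ ¬ ∃ (k m : ℕ) (σ : P k) (τ : P m), 0 < k ∧ 0 < m ∧ IsSum π σ τ

/-- The indecomposable members of `C`. -/
def ind (C : ∀ n, Set (P n)) : ∀ n, Set (P n) := fun n => {π | π ∈ C n ∧ Indec π}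

/-- The upper growth rate. -/
noncomputable def ugr (X : ∀ n, Set (P n)) : ℝ :=
  limsup (fun n : ℕ => ((X n).ncard : ℝ) ^ ((1 : ℝ) / n)) atTop

def om (x : ℕ) : ℕ := if x % 3 = 0 then x + 4 else if x % 3 = 1 then x - 1 else x

def Pat {n : ℕ} (π : P n) (f : Fin n → ℕ) : Prop :=
  StrictMono f ∧ ∀ i j, π i < π j ↔ om (f i) < om (f j)

def Sp {n : ℕ} (f : Fin n → ℕ) : Prop :=
  ∀ i j, f i % 3 = 2 → f j % 3 = 2 → f i < f j → f i + 18 ≤ f j

def C (n : ℕ) : Set (P n) := {π | ∃ f, Pat π f ∧ Sp f}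

theorem cls : IsClass C := by
  rintro n k π σ ⟨f, ⟨f1, f2⟩, f3⟩ ⟨g, g1, g2⟩
  exact ⟨f ∘ g, ⟨f1.comp g1, fun i j => (g2 i j).trans (f2 _ _)⟩, fun i j => f3 _ _⟩

theorem sumc : SumClosed C := by
  rintro n k m π σ τ ⟨f, ⟨f1, f2⟩, f3⟩ ⟨g, ⟨g1, g2⟩, g3⟩ ⟨rfl, h1, h2⟩
  obtain ⟨N, hN⟩ : ∃ N, ∀ i, f i < N :=
    ⟨Finset.univ.sup f + 1, fun i => Nat.lt_succ_of_le (Finset.le_sup (Finset.mem_univ i))⟩
  have o1 : ∀ x, om (x + 3 * (N + 6)) = om x + 3 * (N + 6) := by
    intro x; unfold om; split_ifs <;> omega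
  have o2 : ∀ i, om (f i) < 3 * (N + 6) := by
    intro i; have := hN i; unfold om; split_ifs <;> omega
  have a1 : ∀ i, (π (Fin.castAdd m i)).1 = (σ i).1 := fun i => h1 i _ rfl
  have a2 : ∀ i, (π (Fin.natAdd k i)).1 = k + (τ i).1 := fun i => h2 i _ rfl
  refine ⟨Fin.append f fun i => g i + 3 * (N + 6), ⟨fun i j => ?_, fun i j => ?_⟩,
    fun i j => ?_⟩
  · induction i using Fin.addCases <;> induction j using Fin.addCases <;> rename_i i j <;>
      simp only [Fin.append_left, Fin.append_right, Fin.lt_def, Fin.val_castAdd, Fin.val_natAdd]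
    · exact fun h => f1 h
    · have := hN i; omega
    · have := j.2; omega
    · intro h
      have := g1 (show i < j by rw [Fin.lt_def]; omega)
      omega
  · induction i using Fin.addCases <;> induction j using Fin.addCases <;> rename_i i j <;>
      simp only [Fin.append_left, Fin.append_right, Fin.lt_def, a1, a2, o1]
    · exact f2 i j
    · have := o2 i; have := (σ i).2; omega
    · have := o2 j; have := (σ j).2; omega
    · have := g2 i j
      rw [Fin.lt_def] at this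
      omega
  · induction i using Fin.addCases <;> induction j using Fin.addCases <;> rename_i i j <;>
      simp only [Fin.append_left, Fin.append_right]
    · exact f3 i j
    · have := hN i; omega
    · have := hN j; omega
    · have := g3 i j; omega

theorem split {k m : ℕ} (π : P (k + m))
    (hlt : ∀ i j : Fin (k + m), i.1 < k → k ≤ j.1 → π i < π j) :
    ∃ (σ : P k) (τ : P m), IsSum π σ τ := by
  have b1 : ∀ i : Fin k, (π (Fin.castAdd m i)).1 < k := by
    intro i
    have := Finset.card_le_card_of_injOn (s := Finset.univ) (t := Finset.Ioi (π (Fin.castAdd m i)))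
      (fun j : Fin m => π (Fin.natAdd k j))
      (fun j _ => by simpa using hlt _ _ (by simp) (by simp))
      (fun a _ b _ e => by simpa using e)
    have := (π (Fin.castAdd m i)).2
    simp at *
    omega
  have b2 : ∀ j : Fin m, k ≤ (π (Fin.natAdd k j)).1 := by
    intro j
    have := Finset.card_le_card_of_injOn (s := Finset.univ) (t := Finset.Iio (π (Fin.natAdd k j)))
      (fun i : Fin k => π (Fin.castAdd m i))
      (fun i _ => by simpa using hlt _ _ (by simp) (by simp))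
      (fun a _ b _ e => by simpa using e)
    simpa using this
  let s : Fin k → Fin k := fun i => ⟨_, b1 i⟩
  let t : Fin m → Fin m := fun j => ⟨(π (Fin.natAdd k j)).1 - k, by
    have := (π (Fin.natAdd k j)).2; have := b2 j; omega⟩
  have hs : Function.Injective s := fun a b e => by
    have e1 : (s a).1 = (s b).1 := congrArg Fin.val e
    have : π (Fin.castAdd m a) = π (Fin.castAdd m b) := Fin.ext e1
    simpa using this
  have ht : Function.Injective t := fun a b e => by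
    have e1 : (π (Fin.natAdd k a)).1 - k = (π (Fin.natAdd k b)).1 - k := congrArg Fin.val e
    have := b2 a
    have := b2 b
    have := Fin.ext (show (π (Fin.natAdd k a)).1 = (π (Fin.natAdd k b)).1 by omega)
    simpa using this
  refine ⟨Equiv.ofBijective s (Finite.injective_iff_bijective.1 hs),
    Equiv.ofBijective t (Finite.injective_iff_bijective.1 ht), rfl,
    fun i j e => ?_, fun i j e => ?_⟩
  · obtain rfl : j = Fin.castAdd m i := Fin.ext e
    rfl
  · obtain rfl : j = Fin.natAdd k i := Fin.ext e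
    have := b2 i
    simp only [Equiv.ofBijective_apply, t]
    omega
theorem indec_iff {n : ℕ} (π : P n) :
    Indec π ↔ 0 < n ∧ ∀ k, 0 < k → k < n → ∃ i j : Fin n, i.1 < k ∧ k ≤ j.1 ∧ π j < π i := by
  refine and_congr_right fun _ => ⟨?_, ?_⟩
  · intro h k h0 hk
    by_contra hc
    push Not at hc
    obtain ⟨m, rfl⟩ : ∃ m, n = k + m := ⟨n - k, by omega⟩
    obtain ⟨σ, τ, e⟩ := split π fun i j a b =>
      lt_of_le_of_ne (hc i j a b) (π.injective.ne (by rintro rfl; omega))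
    exact h ⟨k, m, σ, τ, h0, by omega, e⟩
  · rintro h ⟨k, m, σ, τ, h0, h1, rfl, h2, h3⟩
    obtain ⟨i, j, a, b, c⟩ := h k h0 (by omega)
    have := h2 ⟨i, a⟩ i rfl
    have := h3 ⟨j - k, by omega⟩ j (by simp; omega)
    have := (σ ⟨i, a⟩).2
    rw [Fin.lt_def] at c
    omega

theorem pat_uniq {n : ℕ} {π ρ : P n} {f : Fin n → ℕ} (h1 : Pat π f) (h2 : Pat ρ f) : π = ρ := by
  have h : StrictMono fun i => ρ (π.symm i) := fun i j hij =>
    (h2.2 _ _).2 ((h1.2 _ _).1 (by simpa using hij))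
  have h' : (fun i => ρ (π.symm i)) = id := (h.range_inj strictMono_id).1 (by
    rw [Set.range_id]
    exact (ρ.surjective.comp π.symm.surjective).range_eq)
  ext i
  have := congrFun h' (π i)
  simp at this
  rw [this]

theorem om_inj : Function.Injective om := by
  intro a b h
  unfold om at h
  split_ifs at h <;> omega

theorem ex_pat {n : ℕ} (f : Fin n → ℕ) (hf : StrictMono f) : ∃ π : P n, Pat π f := by
  have h : StrictMono ((om ∘ f) ∘ Tuple.sort (om ∘ f)) :=
    (Tuple.monotone_sort _).strictMono_of_injective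
      ((om_inj.comp hf.injective).comp (Equiv.injective _))
  refine ⟨(Tuple.sort (om ∘ f)).symm, hf, fun i j => ?_⟩
  rw [← h.lt_iff_lt]
  simp

theorem cut {n : ℕ} {π : P n} {f : Fin n → ℕ} (hi : Indec π) (hf : Pat π f) (c : ℕ)
    (i0 j0 : Fin n) (h1 : f i0 < c) (h2 : c ≤ f j0) :
    ∃ i j, f i < c ∧ c ≤ f j ∧ om (f j) < om (f i) := by
  have hex : ∃ k, ∃ h : k < n, c ≤ f ⟨k, h⟩ := ⟨j0, j0.2, h2⟩
  obtain ⟨k1, k2⟩ := Nat.find_spec hex
  obtain ⟨i, j, a, b, d⟩ := ((indec_iff π).1 hi).2 (Nat.find hex) (by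
    rw [Nat.find_pos]
    rintro ⟨h, h'⟩
    have := hf.1.monotone (show (⟨0, h⟩ : Fin n) ≤ i0 from Nat.zero_le _)
    omega) k1
  refine ⟨i, j, ?_, k2.trans (hf.1.monotone b), (hf.2 j i).1 d⟩
  by_contra e
  exact Nat.find_min hex a ⟨i.2, not_lt.1 e⟩

def pos (t : ℕ) : ℕ := 3 * (t / 2) + (t + 1) % 2

theorem struct {n : ℕ} (π : P (n + 2)) (h : π ∈ ind C (n + 2)) :
    ∃ (f : Fin (n + 2) → ℕ) (a b : ℕ) (L : Finset ℕ), Pat π f ∧ a ≤ 1 ∧
      (∀ x, x ∈ Finset.univ.image f ↔ (∃ t, a ≤ t ∧ t ≤ b ∧ pos t = x) ∨ ∃ l ∈ L, 3 * l + 2 = x) ∧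
      (∀ l ∈ L, a ≤ 2 * l + 1 ∧ 2 * l + 1 ≤ b) ∧ (∀ l ∈ L, ∀ l' ∈ L, l < l' → l + 6 ≤ l') ∧
      b + 1 - a + L.card = n + 2 := by
  classical
  obtain ⟨⟨g, hg, g3⟩, hi⟩ := h
  have leaf : ∀ i, g i % 3 = 2 → ∃ j, g j + 2 = g i := by
    intro i hi2
    by_contra hc
    push Not at hc
    obtain ⟨k, hk⟩ := exists_ne i
    rcases lt_or_gt_of_ne (hg.1.injective.ne hk) with hl | hl
    · obtain ⟨u, v, a1, a2, a3⟩ := cut hi hg (g i) k i hl le_rfl
      have := hc u
      unfold om at a3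
      split_ifs at a3 <;> omega
    · obtain ⟨u, v, a1, a2, a3⟩ := cut hi hg (g i + 1) i k (by omega) hl
      have := hc u
      unfold om at a3
      split_ifs at a3 <;> omega
  have idx : ∀ x, x % 3 ≠ 2 → pos (2 * (x / 3) + 1 - x % 3) = x := by
    intro x hx; unfold pos; omega
  have hT : ∃ t, ∃ i, g i = pos t := by
    by_cases h0 : g 0 % 3 = 2
    · obtain ⟨j, hj⟩ := leaf 0 h0
      exact ⟨_, j, (idx _ (by omega)).symm⟩
    · exact ⟨_, 0, (idx _ h0).symm⟩
  obtain ⟨a, ⟨ia, ha⟩, amin⟩ : ∃ a, (∃ i, g i = pos a) ∧ ∀ t, (∃ i, g i = pos t) → a ≤ t :=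
    ⟨Nat.find hT, Nat.find_spec hT, fun t ht => Nat.find_min' hT ht⟩
  obtain ⟨b, ⟨ib, hb⟩, bmax⟩ : ∃ b, (∃ i, g i = pos b) ∧ ∀ t, (∃ i, g i = pos t) → t ≤ b := by
    have bd : ∀ t, (∃ i, g i = pos t) → t ≤ g (Fin.last _) + 1 := by
      rintro t ⟨i, hi⟩
      have := hg.1.monotone (Fin.le_last i)
      unfold pos at hi
      omega
    exact ⟨Nat.findGreatest (fun t => ∃ i, g i = pos t) (g (Fin.last _) + 1),
      Nat.findGreatest_spec (P := fun t => ∃ i, g i = pos t) (bd a ⟨ia, ha⟩) ⟨ia, ha⟩,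
      fun t ht => Nat.le_findGreatest (bd t ht) ht⟩
  have all : ∀ t, a ≤ t → t ≤ b → ∃ i, g i = pos t := by
    intro t h1 h2
    by_contra hc
    push Not at hc
    have n1 : t ≠ a := fun e => hc ia (e ▸ ha)
    have n2 : t ≠ b := fun e => hc ib (e ▸ hb)
    obtain ⟨u, v, a1, a2, a3⟩ := cut hi hg (3 * ((t + 1) / 2)) ia ib
      (by unfold pos at ha; omega) (by unfold pos at hb; omega)
    have := hc u
    have := hc v
    unfold om at a3
    unfold pos at *
    split_ifs at a3 <;> omega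
  have up : ∀ i, g i % 3 = 2 → a ≤ 2 * (g i / 3) + 1 ∧ 2 * (g i / 3) + 1 ≤ b := by
    intro i h2
    obtain ⟨j, hj⟩ := leaf i h2
    have : ∃ j, g j = pos (2 * (g i / 3) + 1) := ⟨j, by unfold pos; omega⟩
    exact ⟨amin _ this, bmax _ this⟩
  have lo : ∀ i, 3 * (a / 2) ≤ g i := by
    intro i
    by_cases h2 : g i % 3 = 2
    · have := up i h2; omega
    · have := amin _ ⟨i, (idx _ h2).symm⟩; omega
  obtain ⟨f, hf⟩ : ∃ f : Fin (n + 2) → ℕ, ∀ i, f i + 3 * (a / 2) = g i :=
    ⟨fun i => g i - 3 * (a / 2), fun i => Nat.sub_add_cancel (lo i)⟩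
  have o : ∀ i, om (f i) + 3 * (a / 2) = om (g i) := by
    intro i; have := hf i; unfold om; split_ifs <;> omega
  have hP : Pat π f := ⟨fun i j hij => by have := hg.1 hij; have := hf i; have := hf j; omega,
    fun i j => by have := o i; have := o j; rw [hg.2]; omega⟩
  obtain ⟨L, hL⟩ : ∃ L : Finset ℕ, ∀ l, l ∈ L ↔ ∃ i, f i = 3 * l + 2 :=
    ⟨((Finset.univ.filter fun i => f i % 3 = 2).image fun i => f i / 3), fun l => by
      simp only [Finset.mem_image, Finset.mem_filter, Finset.mem_univ, true_and]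
      exact ⟨fun ⟨i, a, b⟩ => ⟨i, by omega⟩, fun ⟨i, a⟩ => ⟨i, by omega, by omega⟩⟩⟩
  have hx : ∀ x, x ∈ Finset.univ.image f ↔ (∃ t, a % 2 ≤ t ∧ t ≤ b - 2 * (a / 2) ∧ pos t = x) ∨
      ∃ l ∈ L, 3 * l + 2 = x := by
    intro x
    simp only [Finset.mem_image, Finset.mem_univ, true_and]
    constructor
    · rintro ⟨i, rfl⟩
      have := hf i
      by_cases h2 : g i % 3 = 2
      · exact Or.inr ⟨f i / 3, (hL _).2 ⟨i, by omega⟩, by omega⟩
      · have := amin _ ⟨i, (idx _ h2).symm⟩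
        have := bmax _ ⟨i, (idx _ h2).symm⟩
        exact Or.inl ⟨_, by omega, by omega, idx _ (by omega)⟩
    · rintro (⟨t, t1, t2, rfl⟩ | ⟨l, hl, rfl⟩)
      · have := amin _ ⟨ib, hb⟩
        obtain ⟨i, hi⟩ := all (t + 2 * (a / 2)) (by omega) (by omega)
        have := hf i
        exact ⟨i, by unfold pos at *; omega⟩
      · exact (hL l).1 hl
  refine ⟨f, a % 2, b - 2 * (a / 2), L, hP, by omega, hx, fun l hl => ?_,
    fun l hl l' hl' h => ?_, ?_⟩
  · obtain ⟨i, hi⟩ := (hL l).1 hl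
    have := hf i
    have := up i (by omega)
    omega
  · obtain ⟨i, hi⟩ := (hL l).1 hl
    obtain ⟨j, hj⟩ := (hL l').1 hl'
    have := hf i
    have := hf j
    have := g3 i j
    omega
  · have e : Finset.univ.image f = (Finset.Icc (a % 2) (b - 2 * (a / 2))).image pos ∪
        L.image fun l => 3 * l + 2 := by
      ext x
      rw [hx]
      simp [and_assoc]
    have := congrArg Finset.card e
    rw [Finset.card_image_of_injective _ hP.1.injective, Finset.card_union_of_disjoint,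
      Finset.card_image_of_injective _ (fun a b h => by unfold pos at h; omega),
      Finset.card_image_of_injective _ (fun a b h => by omega)] at this
    · simpa using this.symm
    · rw [Finset.disjoint_left]
      intro x h1 h2
      obtain ⟨t, -, rfl⟩ := Finset.mem_image.1 h1
      obtain ⟨l, -, e⟩ := Finset.mem_image.1 h2
      unfold pos at e
      omega

theorem code {n : ℕ} (T : Finset (ℕ × Finset ℕ))
    (hT : ∀ (a b : ℕ) (L : Finset ℕ), a ≤ 1 → (∀ l ∈ L, a ≤ 2 * l + 1 ∧ 2 * l + 1 ≤ b) →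
      (∀ l ∈ L, ∀ l' ∈ L, l < l' → l + 6 ≤ l') → b + 1 - a + L.card = n + 2 → (a, L) ∈ T) :
    (ind C (n + 2)).ncard ≤ T.card := by
  classical
  choose f a b L s1 s2 s3 s4 s5 s6 using @struct n
  rw [← Set.ncard_coe_finset]
  refine Set.ncard_le_ncard_of_injOn
    (fun π => if h : π ∈ ind C (n + 2) then (a π h, L π h) else (0, ∅))
    (fun π h => ?_) (fun π h ρ h' e => ?_)
  · simp only [dif_pos h]
    exact hT _ _ _ (s2 π h) (s4 π h) (s5 π h) (s6 π h)
  · simp only [dif_pos h, dif_pos h', Prod.mk.injEq] at e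
    have e1 : Finset.univ.image (f π h) = Finset.univ.image (f ρ h') := by
      ext x
      have := s6 π h
      have := s6 ρ h'
      rw [s3, s3, e.1, e.2] at *
      constructor <;> refine Or.imp_left fun ⟨t, t1, t2, t3⟩ => ⟨t, t1, by omega, t3⟩
    have : f π h = f ρ h' := ((s1 π h).1.range_inj (s1 ρ h').1).1 (by
      have := congrArg (fun s : Finset ℕ => (s : Set ℕ)) e1
      simpa using this)
    exact pat_uniq (s1 π h) (this ▸ s1 ρ h')

theorem up1 (n : ℕ) : (ind C (n + 2)).ncard ≤ 2 * 2 ^ ((n + 2) / 2 + 1) := by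
  refine (code (Finset.range 2 ×ˢ (Finset.range ((n + 2) / 2 + 1)).powerset) ?_).trans (by simp)
  intro a b L h1 h2 _ h4
  simp only [Finset.mem_product, Finset.mem_range, Finset.mem_powerset]
  refine ⟨by omega, fun l hl => Finset.mem_range.2 ?_⟩
  have := h2 l hl
  omega

theorem up2 (n : ℕ) (hn : n + 2 < 15) : (ind C (n + 2)).ncard ≤ n + 3 := by
  refine (code ({(0, ∅), (1, ∅)} ∪ (Finset.range (n + 1)).image
    fun j => ((j + 1) % 2, {j / 2})) ?_).trans ((Finset.card_union_le _ _).trans ?_)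
  · intro a b L h1 h2 h3 h4
    rcases L.eq_empty_or_nonempty with rfl | ⟨l, hl⟩
    · refine Finset.mem_union_left _ ?_
      interval_cases a <;> simp
    · have e : L = {l} := by
        refine Finset.eq_singleton_iff_unique_mem.2 ⟨hl, fun l' hl' => ?_⟩
        by_contra hne
        have := Finset.one_lt_card.2 ⟨l, hl, l', hl', Ne.symm hne⟩
        have := h2 l hl
        have := h2 l' hl'
        have := h3 l hl l' hl'
        have := h3 l' hl' l hl
        omega
      have := h2 l hl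
      rw [e, Finset.card_singleton] at h4
      refine Finset.mem_union_right _ (Finset.mem_image.2 ⟨2 * l + 1 - a,
        Finset.mem_range.2 (by omega), ?_⟩)
      rw [e]
      congr 2 <;> omega
  · have := Finset.card_image_le (s := Finset.range (n + 1))
      (f := fun j => (((j + 1) % 2, {j / 2}) : ℕ × Finset ℕ))
    have h2 : ({(0, ∅), (1, ∅)} : Finset (ℕ × Finset ℕ)).card ≤ 2 := Finset.card_le_two
    simp only [Finset.card_range] at this
    omega

def Ok1 {n : ℕ} (π : P n) : Prop :=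
  ∀ k : Fin n, 0 < k.1 → ∃ i j : Fin n, i < k ∧ k ≤ j ∧ π j < π i

def Ok2 {n : ℕ} (π : P n) : Prop :=
  ∀ i j k : Fin n, i < j → j < k → π k < π j → ¬ π j < π i

def Ok3 {n : ℕ} (π : P n) (i j : Fin n) : Prop :=
  ∀ k l : Fin n, i < j → j < k → k < l → π l < π i → π l < π j → ¬ π l < π k

def Ok4 {n : ℕ} (π : P n) (i j : Fin n) : Prop :=
  ∀ k l : Fin n, i < j → j < k → k < l → π l < π i → ¬ π k < π j

instance {n : ℕ} (π : P n) : Decidable (Ok1 π) := by unfold Ok1; infer_instance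
instance {n : ℕ} (π : P n) : Decidable (Ok2 π) := by unfold Ok2; infer_instance
instance {n : ℕ} (π : P n) (i j : Fin n) : Decidable (Ok3 π i j) := by unfold Ok3; infer_instance
instance {n : ℕ} (π : P n) (i j : Fin n) : Decidable (Ok4 π i j) := by unfold Ok4; infer_instance

def Ok {n : ℕ} (π : P n) : Prop := Ok1 π ∧ Ok2 π ∧ (∀ i j, Ok3 π i j) ∧ ∀ i j, Ok4 π i j

instance {n : ℕ} : DecidablePred (@Ok n) := fun π => by unfold Ok; infer_instance

theorem small (n : ℕ) : (ind C n).ncard ≤ (Finset.univ.filter (@Ok n)).card := by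
  rw [← Set.ncard_coe_finset]
  refine Set.ncard_le_ncard ?_
  rintro π ⟨⟨f, ⟨f1, f2⟩, f3⟩, hi⟩
  simp only [Finset.coe_filter, Finset.mem_univ, true_and, Set.mem_ofPred_eq]
  refine ⟨fun k hk => ((indec_iff π).1 hi).2 k hk k.2, fun i j k a b => ?_,
    fun i j k l a b c => ?_, fun i j k l a b c => ?_⟩
  · have := f1 a; have := f1 b
    simp only [f2, om]
    split_ifs <;> omega
  · have := f1 a; have := f1 b; have := f1 c
    simp only [f2, om]
    split_ifs <;> omega
  · have := f1 a; have := f1 b; have := f1 c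
    simp only [f2, om]
    split_ifs <;> omega

theorem sm : (ind C 1).ncard ≤ 1 ∧ (ind C 2).ncard ≤ 1 ∧ (ind C 3).ncard ≤ 2 ∧
    (ind C 4).ncard ≤ 3 :=
  ⟨(small 1).trans (by decide +kernel), (small 2).trans (by decide +kernel),
    (small 3).trans (by decide +kernel), (small 4).trans (by decide +kernel)⟩

noncomputable def bd (k : ℕ) : ℝ :=
  if k = 0 then 0 else if k ≤ 2 then 1 else if k ≤ 4 then k - 1 else if k < 15 then k + 1
  else 4 * (3 / 2) ^ k

theorem le_bd (k : ℕ) : ((ind C k).ncard : ℝ) ≤ bd k := by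
  obtain ⟨s1, s2, s3, s4⟩ := sm
  unfold bd
  split_ifs with h0 h1 h2 h3
  · subst h0
    have : ind C 0 = ∅ := Set.eq_empty_of_forall_notMem fun π h => absurd h.2.1 (by simp)
    simp [this]
  · have : k = 1 ∨ k = 2 := by omega
    rcases this with rfl | rfl
    · exact_mod_cast s1
    · exact_mod_cast s2
  · have : k = 3 ∨ k = 4 := by omega
    rcases this with rfl | rfl
    · norm_num; exact_mod_cast s3
    · norm_num; exact_mod_cast s4
  · obtain ⟨n, rfl⟩ : ∃ n, k = n + 2 := ⟨k - 2, by omega⟩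
    exact_mod_cast up2 n h3
  · obtain ⟨n, rfl⟩ : ∃ n, k = n + 2 := ⟨k - 2, by omega⟩
    have h : ((ind C (n + 2)).ncard : ℝ) ≤ 2 * 2 ^ ((n + 2) / 2 + 1) := by exact_mod_cast up1 n
    have h4 : (2 : ℝ) ^ ((n + 2) / 2) ≤ (3 / 2) ^ (n + 2) :=
      calc (2 : ℝ) ^ ((n + 2) / 2) ≤ ((3 / 2) ^ 2) ^ ((n + 2) / 2) :=
            pow_le_pow_left₀ (by norm_num) (by norm_num) _
        _ ≤ _ := by
            rw [← pow_mul]
            exact pow_le_pow_right₀ (by norm_num) (by omega)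
    rw [pow_succ] at h
    linarith

theorem sum_bd (n : ℕ) : ∑ k ∈ Finset.range n, bd k * (5 / 12) ^ k ≤ 1 := by
  have h : ∀ m, ∑ k ∈ Finset.range (15 + m), bd k * (5 / 12) ^ k ≤
      1 - 32 / 3 * (5 / 8) ^ (15 + m) := by
    intro m
    induction m with
    | zero => simp only [Finset.sum_range_succ, bd]; norm_num
    | succ m ih =>
      rw [← add_assoc, Finset.sum_range_succ]
      have : bd (15 + m) * (5 / 12) ^ (15 + m) = 4 * (5 / 8) ^ (15 + m) := by
        unfold bd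
        rw [if_neg (by omega), if_neg (by omega), if_neg (by omega), if_neg (by omega), mul_assoc,
          ← mul_pow]
        norm_num
      rw [this, pow_succ]
      linarith
  have h2 := Finset.sum_le_sum_of_subset_of_nonneg (f := fun k => bd k * (5 / 12) ^ k)
    (Finset.range_mono (show n ≤ 15 + n by omega))
    (fun k _ _ => mul_nonneg ((Nat.cast_nonneg _).trans (le_bd k)) (by positivity))
  have := h n
  have : (0 : ℝ) ≤ (5 / 8) ^ (15 + n) := by positivity
  linarith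

theorem first {n : ℕ} (hn : 0 < n) (π : P n) (h : π ∈ C n) :
    ∃ k ≤ n, ∃ σ ∈ ind C k, ∃ τ ∈ C (n - k), IsSum π σ τ := by
  have hex : ∃ k, 0 < k ∧ ∀ i j : Fin n, i.1 < k → k ≤ j.1 → π i < π j :=
    ⟨n, hn, fun i j _ b => absurd j.2 (by omega)⟩
  obtain ⟨k, ⟨k0, k1⟩, kmin⟩ : ∃ k, (0 < k ∧ ∀ i j : Fin n, i.1 < k → k ≤ j.1 → π i < π j) ∧
      ∀ l, (0 < l ∧ ∀ i j : Fin n, i.1 < l → l ≤ j.1 → π i < π j) → k ≤ l := by
    classical
    exact ⟨Nat.find hex, Nat.find_spec hex, fun l hl => Nat.find_min' hex hl⟩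
  have hk : k ≤ n := kmin n ⟨hn, fun i j _ b => absurd j.2 (by omega)⟩
  obtain ⟨m, rfl⟩ : ∃ m, n = k + m := ⟨n - k, by omega⟩
  refine ⟨k, hk, ?_⟩
  rw [Nat.add_sub_cancel_left]
  obtain ⟨σ, τ, e⟩ := split π k1
  have a1 : ∀ i, (π (Fin.castAdd m i)).1 = (σ i).1 := fun i => e.2.1 i _ rfl
  have a2 : ∀ i, (π (Fin.natAdd k i)).1 = k + (τ i).1 := fun i => e.2.2 i _ rfl
  refine ⟨σ, ⟨cls _ _ π σ h ⟨Fin.castAdd m, fun a b c => c, fun i j => by
    simp only [Fin.lt_def, a1]⟩, (indec_iff σ).2 ⟨k0, fun l l0 l1 => ?_⟩⟩, τ,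
    cls _ _ π τ h ⟨Fin.natAdd k, fun a b c => Nat.add_lt_add_left c k, fun i j => by
      simp only [Fin.lt_def, a2]; omega⟩, e⟩
  by_contra hc
  push Not at hc
  have := kmin l ⟨l0, fun i j a b => by
    by_cases hj : j.1 < k
    · have c1 := hc ⟨i, by omega⟩ ⟨j, hj⟩ a b
      have c2 := e.2.1 ⟨i, by omega⟩ i rfl
      have c3 := e.2.1 ⟨j, hj⟩ j rfl
      refine lt_of_le_of_ne ?_ (π.injective.ne (by rintro rfl; omega))
      rw [Fin.le_def] at c1 ⊢
      omega
    · exact k1 i j (by omega) (by omega)⟩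
  omega

theorem count (n : ℕ) : ((C n).ncard : ℝ) ≤ (12 / 5) ^ n := by
  induction n using Nat.strong_induction_on with
  | _ n ih =>
  rcases n.eq_zero_or_pos with rfl | hn
  · have : (C 0).ncard ≤ 1 := (Set.ncard_le_one (Set.toFinite _)).2 fun a _ b _ =>
      Subsingleton.elim a b
    rw [pow_zero]
    exact_mod_cast this
  let D : ℕ → Set (P n) := fun k => {π | ∃ σ ∈ ind C k, ∃ τ ∈ C (n - k), IsSum π σ τ}
  have h1 : (C n).ncard ≤ ∑ k ∈ Finset.range (n + 1), (D k).ncard := by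
    refine (Set.ncard_le_ncard fun π h => ?_).trans (Finset.set_ncard_biUnion_le _ D)
    obtain ⟨k, k1, k2⟩ := first hn π h
    exact Set.mem_biUnion (Finset.mem_coe.2 (Finset.mem_range.2 (by omega))) k2
  have h2 : ∀ k, (D k).ncard ≤ (ind C k).ncard * (C (n - k)).ncard := by
    classical
    intro k
    have : ∀ π ∈ D k, ∃ q : P k × P (n - k), q ∈ ind C k ×ˢ C (n - k) ∧ IsSum π q.1 q.2 :=
      fun π ⟨σ, a, τ, b, c⟩ => ⟨(σ, τ), ⟨a, b⟩, c⟩
    choose! q q1 q2 using this
    rw [← Set.ncard_prod]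
    refine Set.ncard_le_ncard_of_injOn q q1 fun π a ρ b e => ?_
    have c1 := q2 π a
    have c2 := q2 ρ b
    rw [e] at c1
    ext j
    by_cases hj : j.1 < k
    · rw [c1.2.1 ⟨j, hj⟩ j rfl, c2.2.1 ⟨j, hj⟩ j rfl]
    · have := j.2
      rw [c1.2.2 ⟨j - k, by omega⟩ j (by simp; omega), c2.2.2 ⟨j - k, by omega⟩ j (by simp; omega)]
  have h3 : ((C n).ncard : ℝ) ≤ ∑ k ∈ Finset.range (n + 1), ((D k).ncard : ℝ) := by
    exact_mod_cast h1
  refine h3.trans ((Finset.sum_le_sum (g := fun k => bd k * (5 / 12) ^ k * (12 / 5) ^ n)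
    fun k hk => ?_).trans ?_)
  · have h4 : ((D k).ncard : ℝ) ≤ (ind C k).ncard * (C (n - k)).ncard := by exact_mod_cast h2 k
    have h5 := le_bd k
    rw [Finset.mem_range] at hk
    rcases k.eq_zero_or_pos with rfl | hk0
    · have : ((ind C 0).ncard : ℝ) = 0 := le_antisymm (by simpa [bd] using h5) (by positivity)
      rw [this] at h4
      simpa [bd] using h4
    · have h6 : (5 / 12 : ℝ) ^ k * (12 / 5) ^ n = (12 / 5) ^ (n - k) := by
        obtain ⟨m, rfl⟩ : ∃ m, n = k + m := ⟨n - k, by omega⟩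
        rw [Nat.add_sub_cancel_left, pow_add, ← mul_assoc, ← mul_pow]
        norm_num
      rw [mul_assoc, h6]
      exact h4.trans (mul_le_mul h5 (ih _ (by omega)) (by positivity)
        ((Nat.cast_nonneg _).trans h5))
  · rw [← Finset.sum_mul]
    exact mul_le_of_le_one_left (by positivity) (sum_bd _)

def F (w : ℕ → Bool) (i : ℕ) : ℕ :=
  36 * (i / 25) + if i % 25 < (if w (i / 25) then 2 else 14) then 3 * (i % 25 / 2) + i % 25 % 2
    else if i % 25 = (if w (i / 25) then 2 else 14) then (if w (i / 25) then 2 else 20)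
    else 3 * ((i % 25 - 1) / 2) + (i % 25 - 1) % 2

theorem F_mono (w : ℕ → Bool) : StrictMono (F w) := by
  refine strictMono_nat_of_lt_succ fun i => ?_
  unfold F
  by_cases h : (i + 1) / 25 = i / 25
  · rw [h]; split_ifs <;> omega
  · split_ifs <;> omega

theorem F_surj (w : ℕ → Bool) (j y : ℕ) (h : y < 36 * j) (h5 : y % 3 ≠ 2) :
    ∃ i < 25 * j, F w i = y := by
  have e : ∀ r < 25, (25 * (y / 36) + r) / 25 = y / 36 ∧ (25 * (y / 36) + r) % 25 = r := by
    intro r hr; omega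
  obtain ⟨r, hr⟩ : ∃ r, r = 2 * (y % 36 / 3) + y % 3 := ⟨_, rfl⟩
  by_cases hw : r < (if w (y / 36) then 2 else 14)
  · refine ⟨25 * (y / 36) + r, by omega, ?_⟩
    unfold F
    rw [(e _ (by omega)).1, (e _ (by omega)).2, if_pos hw]
    omega
  · refine ⟨25 * (y / 36) + (r + 1), by omega, ?_⟩
    unfold F
    rw [(e _ (by omega)).1, (e _ (by omega)).2, if_neg (by omega), if_neg (by omega)]
    omega

theorem lower (j : ℕ) (hj : 0 < j) : 2 ^ j ≤ (ind C (25 * j)).ncard := by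
  let W : (Fin j → Bool) → ℕ → Bool := fun w t => if h : t < j then w ⟨t, h⟩ else false
  have hm : ∀ w, StrictMono fun i : Fin (25 * j) => F (W w) i := fun w a b h => F_mono _ h
  choose π hπ using fun w => ex_pat _ (hm w)
  have h1 : ∀ w, π w ∈ ind C (25 * j) := by
    intro w
    refine ⟨⟨_, hπ w, fun a b => ?_⟩, (indec_iff _).2 ⟨by omega, fun k h0 hk => ?_⟩⟩
    · simp only [F]
      by_cases h : a.1 / 25 = b.1 / 25
      · rw [h]; split_ifs <;> omega
      · split_ifs <;> omega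
    have c0 : 0 < F (W w) k := (Nat.zero_le _).trans_lt (F_mono _ h0)
    have c1 : F (W w) k < 36 * j := by unfold F; split_ifs <;> omega
    by_cases h : F (W w) k % 3 = 0
    · obtain ⟨i1, b1, e1⟩ := F_surj (W w) j (F (W w) k - 3) (by omega) (by omega)
      obtain ⟨i2, b2, e2⟩ := F_surj (W w) j (F (W w) k + 1) (by omega) (by omega)
      refine ⟨⟨i1, b1⟩, ⟨i2, b2⟩, (F_mono (W w)).lt_iff_lt.1 (by simp only; omega),
        (F_mono (W w)).le_iff_le.1 (by simp only; omega), ((hπ w).2 _ _).2 ?_⟩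
      simp only [e1, e2, om]
      split_ifs <;> omega
    · obtain ⟨i1, b1, e1⟩ := F_surj (W w) j (F (W w) k - F (W w) k % 3) (by omega) (by omega)
      refine ⟨⟨i1, b1⟩, ⟨k, hk⟩, (F_mono (W w)).lt_iff_lt.1 (by simp only; omega), le_rfl,
        ((hπ w).2 _ _).2 ?_⟩
      simp only [e1, om]
      split_ifs <;> omega
  have h2 : ∀ w (t : Fin j), (w t = true ↔
      π w ⟨25 * t + 2, by omega⟩ < π w ⟨25 * t, by omega⟩) := by
    intro w t
    rw [(hπ w).2]
    have e1 : (25 * t.1 + 2) / 25 = t := by omega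
    have e2 : (25 * t.1) / 25 = t := by omega
    have e4 : (25 * t.1 + 2) % 25 = 2 := by omega
    have e5 : (25 * t.1) % 25 = 0 := by omega
    have e3 : W w t = w t := by simp [W]
    simp only [F, e1, e2, e3, e4, e5, om]
    cases w t <;> simp <;> split_ifs <;> omega
  have h3 : Function.Injective π := by
    intro w v e
    funext t
    have := h2 w t
    rw [e, ← h2 v t] at this
    exact Bool.eq_iff_iff.2 this
  have := Set.ncard_le_ncard_of_injOn (s := Set.univ) (t := ind C (25 * j)) π (fun w _ => h1 w)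
    h3.injOn
  simpa [Set.ncard_univ] using this

theorem ev (X : ∀ n, Set (P n)) (h : ∀ n, X n ⊆ C n) :
    ∀ᶠ n : ℕ in atTop, ((X n).ncard : ℝ) ^ ((1 : ℝ) / n) ≤ 12 / 5 := by
  filter_upwards [eventually_ge_atTop 1] with n h2
  have h5 : ((X n).ncard : ℝ) ≤ (12 / 5) ^ n :=
    le_trans (by exact_mod_cast Set.ncard_le_ncard (h n)) (count n)
  rw [one_div]
  refine (Real.rpow_le_rpow (by positivity) h5 (by positivity)).trans (le_of_eq ?_)
  exact Real.pow_rpow_inv_natCast (by norm_num) (by omega)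

theorem result : ∃ C : ∀ n, Set (P n), IsClass C ∧ SumClosed C ∧ 1 < ugr (ind C) ∧
    (∀ n, ((C n).ncard : ℝ) ≤ (12 / 5) ^ n) ∧ ugr C < 1 + √2 := by
  refine ⟨C, cls, sumc, ?_, count, ?_⟩
  · refine (Real.one_lt_rpow (show (1 : ℝ) < 2 by norm_num)
      (show (0 : ℝ) < 1 / 25 by norm_num)).trans_le
      (le_limsup_of_frequently_le ?_ ⟨12 / 5, ev _ fun n π h => h.1⟩)
    rw [frequently_atTop]
    intro a
    refine ⟨25 * (a + 1), by omega, ?_⟩
    have h : (2 : ℝ) ^ (a + 1) ≤ (ind C (25 * (a + 1))).ncard := by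
      exact_mod_cast lower (a + 1) (by omega)
    refine le_trans (le_of_eq ?_) (Real.rpow_le_rpow (by positivity) h (by positivity))
    rw [← Real.rpow_natCast, ← Real.rpow_mul (by norm_num)]
    congr 1
    push_cast
    field_simp
  · refine (limsup_le_of_le (isCoboundedUnder_le_of_le (x := 0) _ fun n => by positivity)
      (ev _ fun n => subset_rfl)).trans_lt ?_
    have : (7 / 5 : ℝ) < √2 := Real.lt_sqrt_of_sq_lt (by norm_num)
    linarith

end Pool.Agent.Results.MP_414122_co.Counter
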